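import Pool.Agent.N798.H.Stm2

set_option autoImplicit false

/-!
Leaf HS/EX (helper280), project HS (helper798): exceptional sets (Borel-Cantelli).
-/

namespace Pool.Agent.N280.HS

open Finset MeasureTheory Filter Topology
open scoped ENNReal
open Pool.Agent.N798.HS

/-- summability of `1 / (n (log n)^2)` -/
theorem summable_log : Summable fun n : ℕ => if 3 ≤ n then 1 / ((n : ℝ) * (Real.log n) ^ 2) else 0 := by
  have key : ∀ n : ℕ, 3 ≤ n → 1 / ((n : ℝ) * (Real.log n) ^ 2) ≤
      1 / Real.log ((n : ℝ) - 1) - 1 / Real.log n := by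
    intro n hn
    have hn' : (3 : ℝ) ≤ n := by exact_mod_cast hn
    have h1 : 0 < Real.log ((n : ℝ) - 1) := Real.log_pos (by linarith)
    have h2 : 0 < Real.log (n : ℝ) := Real.log_pos (by linarith)
    have h3 : Real.log ((n : ℝ) - 1) ≤ Real.log n := Real.log_le_log (by linarith) (by linarith)
    have h4 : 1 / (n : ℝ) ≤ Real.log n - Real.log ((n : ℝ) - 1) := by
      rw [← Real.log_div (by linarith) (by linarith)]
      have h5 := Real.one_sub_inv_le_log_of_pos (x := (n : ℝ) / ((n : ℝ) - 1))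
        (div_pos (by linarith) (by linarith))
      have h6 : 1 - ((n : ℝ) / ((n : ℝ) - 1))⁻¹ = 1 / (n : ℝ) := by
        rw [inv_div]
        field_simp
        ring
      linarith
    rw [div_sub_div _ _ h1.ne' h2.ne', one_mul, mul_one]
    calc 1 / ((n : ℝ) * (Real.log n) ^ 2) = (1 / (n : ℝ)) / ((Real.log n) ^ 2) := by
          rw [div_div]
      _ ≤ (Real.log n - Real.log ((n : ℝ) - 1)) / ((Real.log n) ^ 2) := by gcongr
      _ ≤ (Real.log n - Real.log ((n : ℝ) - 1)) / (Real.log ((n : ℝ) - 1) * Real.log n) := by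
          apply div_le_div_of_nonneg_left (by linarith) (by positivity)
          rw [sq]
          gcongr
  refine summable_of_sum_range_le (c := 1 / Real.log 2) ?_ ?_
  · intro n
    split_ifs with h
    · have : (3 : ℝ) ≤ n := by exact_mod_cast h
      positivity
    · exact le_rfl
  · have hS : ∀ n : ℕ, ∑ i ∈ range (n + 3), (if 3 ≤ i then 1 / ((i : ℝ) * (Real.log i) ^ 2) else 0) ≤
        1 / Real.log 2 - 1 / Real.log ((n : ℝ) + 2) := by
      intro n
      induction n with
      | zero =>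
        simp [sum_range_succ]
      | succ n ih =>
        rw [show n + 1 + 3 = (n + 3) + 1 by ring, sum_range_succ, if_pos (by omega)]
        have h := key (n + 3) (by omega)
        have e1 : (((n + 3 : ℕ) : ℝ) - 1) = (n : ℝ) + 2 := by push_cast; ring
        have e2 : (((n + 1 : ℕ) : ℝ) + 2) = ((n + 3 : ℕ) : ℝ) := by push_cast; ring
        rw [e1] at h
        rw [e2]
        linarith
    intro n
    calc ∑ i ∈ range n, (if 3 ≤ i then 1 / ((i : ℝ) * (Real.log i) ^ 2) else 0)
        ≤ ∑ i ∈ range (n + 3), (if 3 ≤ i then 1 / ((i : ℝ) * (Real.log i) ^ 2) else 0) := by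
          apply sum_le_sum_of_subset_of_nonneg
          · exact range_mono (by omega)
          · intro i _ _
            split_ifs with h
            · have : (3 : ℝ) ≤ i := by exact_mod_cast h
              positivity
            · exact le_rfl
      _ ≤ 1 / Real.log 2 - 1 / Real.log ((n : ℝ) + 2) := hS n
      _ ≤ 1 / Real.log 2 := by
          have : 0 ≤ 1 / Real.log ((n : ℝ) + 2) := by
            apply div_nonneg zero_le_one (Real.log_nonneg _)
            have : (0 : ℝ) ≤ n := Nat.cast_nonneg n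
            linarith
          linarith

theorem lim_log (K : ℕ) : Tendsto (fun N : ℕ => (Real.log N) ^ K / √(N : ℝ)) atTop (𝓝 0) := by
  have h := (isLittleO_log_rpow_rpow_atTop (K : ℝ) (show (0 : ℝ) < 1 / 2 by norm_num)).tendsto_div_nhds_zero
  have h2 := h.comp tendsto_natCast_atTop_atTop
  refine h2.congr fun N => ?_
  simp only [Function.comp_apply]
  rw [Real.rpow_natCast, ← Real.sqrt_eq_rpow]

open Classical in
/-- a set with `∑ (log n)^(K+1) / n < ∞` -/
theorem det (B : ℕ → Prop) (K n0 : ℕ)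
    (h : Summable fun n : ℕ => if n0 ≤ n ∧ B n then (Real.log n) ^ (K + 1) / n else 0) :
    Tendsto (fun N : ℕ => (#((Icc 1 N).filter B) : ℝ) * (Real.log N) ^ K / N) atTop (𝓝 0) := by
  obtain ⟨a, ha⟩ : ∃ a : ℕ → ℝ, a = fun n : ℕ =>
    if n0 ≤ n ∧ B n then (Real.log n) ^ (K + 1) / n else 0 := ⟨_, rfl⟩
  rw [← ha] at h
  have ha0 : ∀ n, 0 ≤ a n := by
    intro n
    rw [ha]
    dsimp only
    split_ifs
    · exact div_nonneg (pow_nonneg (Real.log_natCast_nonneg n) _) (Nat.cast_nonneg n)
    · exact le_rfl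
  have hT := h.hasSum.tendsto_sum_nat
  have hs : Tendsto (fun N : ℕ => Nat.sqrt N) atTop atTop := by
    refine tendsto_atTop.2 fun b => ?_
    filter_upwards [eventually_ge_atTop (b * b)] with N hN
    exact Nat.le_sqrt.2 hN
  have hlim : Tendsto (fun N : ℕ => (Real.log N) ^ K / √(N : ℝ) +
      ((∑ i ∈ range (N + 1), a i) - ∑ i ∈ range (Nat.sqrt N + 1), a i)) atTop (𝓝 0) := by
    have h1 := hT.comp (tendsto_add_atTop_nat 1)
    have h2 := hT.comp ((tendsto_add_atTop_nat 1).comp hs)
    have h3 := (lim_log K).add (h1.sub h2)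
    simpa using h3
  refine squeeze_zero' (Eventually.of_forall fun N => ?_) ?_ hlim
  · exact div_nonneg (mul_nonneg (Nat.cast_nonneg _) (pow_nonneg (Real.log_natCast_nonneg N) _))
      (Nat.cast_nonneg N)
  · have hlog : Tendsto (fun N : ℕ => Real.log (N : ℝ)) atTop atTop :=
      Real.tendsto_log_atTop.comp tendsto_natCast_atTop_atTop
    filter_upwards [hs.eventually_ge_atTop n0, hlog.eventually_ge_atTop ((2 : ℝ) ^ (K + 1)),
      eventually_ge_atTop 1] with N hN1 hN2 hN3
    have hNpos : (0 : ℝ) < N := by exact_mod_cast hN3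
    have hlogN : 0 < Real.log N := lt_of_lt_of_le (by positivity) hN2
    have hsN : Nat.sqrt N ≤ N := Nat.sqrt_le_self N
    -- split
    have hc : #((Icc 1 N).filter B) ≤ Nat.sqrt N + #((Ico (Nat.sqrt N + 1) (N + 1)).filter B) := by
      have h1 : (Icc 1 N).filter B ⊆ Icc 1 (Nat.sqrt N) ∪ (Ico (Nat.sqrt N + 1) (N + 1)).filter B := by
        intro n hn
        rw [mem_filter, mem_Icc] at hn
        rw [mem_union, mem_Icc, mem_filter, mem_Ico]
        by_cases h2 : n ≤ Nat.sqrt N
        · exact Or.inl ⟨hn.1.1, h2⟩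
        · exact Or.inr ⟨⟨by omega, by omega⟩, hn.2⟩
      calc #((Icc 1 N).filter B) ≤ _ := card_le_card h1
        _ ≤ _ := card_union_le _ _
        _ = _ := by rw [Nat.card_Icc]; simp
    have hc' : (#((Icc 1 N).filter B) : ℝ) ≤
        (Nat.sqrt N : ℝ) + (#((Ico (Nat.sqrt N + 1) (N + 1)).filter B) : ℝ) := by exact_mod_cast hc
    have h2 : (#((Ico (Nat.sqrt N + 1) (N + 1)).filter B) : ℝ) * ((Real.log N) ^ K / N) ≤
        (∑ i ∈ range (N + 1), a i) - ∑ i ∈ range (Nat.sqrt N + 1), a i := by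
      rw [← sum_Ico_eq_sub _ (by omega : Nat.sqrt N + 1 ≤ N + 1), ← nsmul_eq_mul, ← sum_const,
        sum_filter]
      apply sum_le_sum
      intro n hn
      rw [mem_Ico] at hn
      by_cases hB : B n
      · rw [if_pos hB, ha]
        dsimp only
        rw [if_pos ⟨by omega, hB⟩]
        have hn0 : 0 < n := by omega
        have hn0' : (0 : ℝ) < n := by exact_mod_cast hn0
        have hnN : (n : ℝ) ≤ N := by exact_mod_cast (by omega : n ≤ N)
        have h3 : N ≤ n ^ 2 := by
          have h4 := Nat.lt_succ_sqrt' N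
          have h5 : (Nat.succ (Nat.sqrt N)) ^ 2 ≤ n ^ 2 := Nat.pow_le_pow_left hn.1 2
          omega
        have h6 : Real.log N ≤ 2 * Real.log n := by
          have h7 : (N : ℝ) ≤ (n : ℝ) ^ 2 := by exact_mod_cast h3
          have h8 := Real.log_le_log hNpos h7
          rw [Real.log_pow] at h8
          exact_mod_cast h8
        have h9 : (Real.log N) ^ K ≤ (Real.log n) ^ (K + 1) := by
          have h10 : (Real.log N / 2) ^ (K + 1) ≤ (Real.log n) ^ (K + 1) :=
            pow_le_pow_left₀ (by positivity) (by linarith) _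
          refine le_trans ?_ h10
          rw [div_pow, le_div_iff₀ (by positivity), pow_succ (Real.log N) K]
          exact mul_le_mul_of_nonneg_left hN2 (by positivity)
        calc (Real.log N) ^ K / N ≤ (Real.log n) ^ (K + 1) / N := by gcongr
          _ ≤ (Real.log n) ^ (K + 1) / n := by
            apply div_le_div_of_nonneg_left _ hn0' hnN
            exact pow_nonneg (Real.log_natCast_nonneg n) _
      · rw [if_neg hB]
        exact ha0 n
    have h3 : (Nat.sqrt N : ℝ) * ((Real.log N) ^ K / N) ≤ (Real.log N) ^ K / √(N : ℝ) := by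
      have h4 : (Nat.sqrt N : ℝ) ≤ √(N : ℝ) := Real.nat_sqrt_le_real_sqrt
      have h5 : 0 < √(N : ℝ) := Real.sqrt_pos.2 hNpos
      calc (Nat.sqrt N : ℝ) * ((Real.log N) ^ K / N) ≤ √(N : ℝ) * ((Real.log N) ^ K / N) := by
            gcongr
        _ = (Real.log N) ^ K / √(N : ℝ) := by
            have h6 : (N : ℝ) = √(N : ℝ) * √(N : ℝ) := (Real.mul_self_sqrt hNpos.le).symm
            rw [mul_div_assoc', div_eq_div_iff hNpos.ne' h5.ne']
            calc √(N : ℝ) * (Real.log N) ^ K * √(N : ℝ) = (Real.log N) ^ K * (√(N : ℝ) * √(N : ℝ)) := by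
                  ring
              _ = (Real.log N) ^ K * N := by rw [← h6]
    have h4 : 0 ≤ (Real.log N) ^ K / N := by positivity
    calc (#((Icc 1 N).filter B) : ℝ) * (Real.log N) ^ K / N
        = (#((Icc 1 N).filter B) : ℝ) * ((Real.log N) ^ K / N) := by rw [mul_div_assoc]
      _ ≤ ((Nat.sqrt N : ℝ) + (#((Ico (Nat.sqrt N + 1) (N + 1)).filter B) : ℝ)) *
          ((Real.log N) ^ K / N) := by gcongr
      _ ≤ _ := by
        rw [add_mul]
        linarith

open Classical in
theorem ex : S_EX := by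
  intro Ω _ m _ g hg hK
  rw [ae_all_iff]
  intro L
  rw [ae_all_iff]
  intro K
  obtain ⟨D, N0, hD, hN0, hb⟩ := hK (2 * L + K + 3)
  obtain ⟨n0, hn0⟩ : ∃ n0 : ℕ, n0 = max N0 3 := ⟨_, rfl⟩
  have hn03 : 3 ≤ n0 := by omega
  obtain ⟨f, hf⟩ : ∃ f : ℕ → Ω → ℝ≥0∞, f = fun n ω =>
    if n0 ≤ n ∧ (n : ℝ) / (Real.log n) ^ L < ‖g ω n‖ then
      ENNReal.ofReal ((Real.log n) ^ (K + 1) / n) else 0 := ⟨_, rfl⟩
  have hfm : ∀ n, Measurable (f n) := by
    intro n
    rw [hf]
    dsimp only
    by_cases h : n0 ≤ n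
    · simp only [h, true_and]
      exact Measurable.ite (measurableSet_lt measurable_const (hg n).norm) measurable_const
        measurable_const
    · simp only [h, false_and, if_false]
      exact measurable_const
  have hfb : ∀ n, ∫⁻ ω, f n ω ∂m ≤
      ENNReal.ofReal (D * if 3 ≤ n then 1 / ((n : ℝ) * (Real.log n) ^ 2) else 0) := by
    intro n
    by_cases h : n0 ≤ n
    · have h3 : 3 ≤ n := by omega
      have hn' : (3 : ℝ) ≤ n := by exact_mod_cast h3
      have hnpos : (0 : ℝ) < n := by linarith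
      have hl : 0 < Real.log (n : ℝ) := Real.log_pos (by linarith)
      rw [if_pos h3]
      have hc0 : 0 ≤ (Real.log n) ^ (K + 1) / n * ((Real.log n) ^ (2 * L) / (n : ℝ) ^ 2) := by
        positivity
      have hpt : ∀ ω, f n ω ≤ ENNReal.ofReal ((Real.log n) ^ (K + 1) / n *
          ((Real.log n) ^ (2 * L) / (n : ℝ) ^ 2)) * ‖g ω n‖ₑ ^ 2 := by
        intro ω
        rw [hf]
        dsimp only
        split_ifs with h4
        · rw [← ofReal_norm_eq_enorm, ← ENNReal.ofReal_pow (norm_nonneg _), ← ENNReal.ofReal_mul hc0]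
          apply ENNReal.ofReal_le_ofReal
          have h5 : 1 ≤ (Real.log n) ^ (2 * L) / (n : ℝ) ^ 2 * ‖g ω n‖ ^ 2 := by
            have h6 : (n : ℝ) ≤ (Real.log n) ^ L * ‖g ω n‖ := by
              have := (div_lt_iff₀ (by positivity : 0 < (Real.log (n : ℝ)) ^ L)).1 h4.2
              linarith
            rw [div_mul_eq_mul_div, le_div_iff₀ (by positivity), one_mul]
            calc (n : ℝ) ^ 2 ≤ ((Real.log n) ^ L * ‖g ω n‖) ^ 2 := by gcongr
              _ = (Real.log n) ^ (2 * L) * ‖g ω n‖ ^ 2 := by ring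
          rw [mul_assoc]
          exact le_mul_of_one_le_right (by positivity) h5
        · exact bot_le
      calc ∫⁻ ω, f n ω ∂m ≤ ∫⁻ ω, ENNReal.ofReal ((Real.log n) ^ (K + 1) / n *
            ((Real.log n) ^ (2 * L) / (n : ℝ) ^ 2)) * ‖g ω n‖ₑ ^ 2 ∂m := lintegral_mono hpt
        _ = ENNReal.ofReal ((Real.log n) ^ (K + 1) / n *
            ((Real.log n) ^ (2 * L) / (n : ℝ) ^ 2)) * ∫⁻ ω, ‖g ω n‖ₑ ^ 2 ∂m :=
          lintegral_const_mul' _ _ ENNReal.ofReal_ne_top
        _ ≤ ENNReal.ofReal ((Real.log n) ^ (K + 1) / n *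
            ((Real.log n) ^ (2 * L) / (n : ℝ) ^ 2)) *
            ENNReal.ofReal (D * n ^ 2 / (Real.log n) ^ (2 * L + K + 3)) := by
          gcongr
          exact hb n (by omega)
        _ = ENNReal.ofReal (D * (1 / ((n : ℝ) * (Real.log n) ^ 2))) := by
          rw [← ENNReal.ofReal_mul hc0]
          congr 1
          have e1 : (Real.log (n : ℝ)) ^ (2 * L + K + 3) =
            (Real.log n) ^ (K + 1) * (Real.log n) ^ (2 * L) * (Real.log n) ^ 2 := by ring
          rw [e1]
          field_simp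
    · have h1 : ∀ ω, f n ω = 0 := by
        intro ω
        rw [hf]
        dsimp only
        rw [if_neg (fun h2 => h h2.1)]
      simp [h1]
  have hfin : ∫⁻ ω, ∑' n, f n ω ∂m ≠ ⊤ := by
    rw [lintegral_tsum fun n => (hfm n).aemeasurable]
    have hsum : Summable fun n : ℕ => D * if 3 ≤ n then 1 / ((n : ℝ) * (Real.log n) ^ 2) else 0 :=
      summable_log.mul_left D
    refine ne_top_of_le_ne_top hsum.tsum_ofReal_ne_top (ENNReal.tsum_le_tsum hfb)
  have hae := ae_lt_top' (AEMeasurable.ennreal_tsum fun n => (hfm n).aemeasurable) hfin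
  filter_upwards [hae] with ω hω
  refine det _ K n0 ?_
  have h1 := ENNReal.summable_toReal hω.ne
  refine h1.congr fun n => ?_
  rw [hf]
  dsimp only
  split_ifs with h
  · exact ENNReal.toReal_ofReal (div_nonneg (pow_nonneg (Real.log_natCast_nonneg n) _)
      (Nat.cast_nonneg n))
  · rfl

end Pool.Agent.N280.HS
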